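import Mathlib
import Pool.Agent.H847R3.XpXqE

/-!
The key step of affine rigidity: if `x ↦ r x + γ` moves a part of a `×m` invariant measure into a
multiple of a singular `×p, ×q` invariant measure then `r l + (n - 1) γ` is rational for many
return times `n = m ^ i` and the corresponding digits `l`.
-/

set_option autoImplicit false

open MeasureTheory Filter Topology Set
open Pool.Agent.H847R3.XpXq

namespace Pool.Agent.U610.AR

/-- the representative in `[0, 1)` -/
noncomputable def rp (y : T) : ℝ := (AddCircle.measurableEquivIco 1 0 y : ℝ)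

lemma meas_rp : Measurable rp :=
  measurable_subtype_coe.comp (AddCircle.measurableEquivIco 1 0).measurable

lemma rp_nonneg (y : T) : 0 ≤ rp y := (AddCircle.measurableEquivIco 1 0 y).2.1

lemma rp_lt_one (y : T) : rp y < 1 := by
  have := (AddCircle.measurableEquivIco 1 0 y).2.2
  simpa [rp] using this

lemma coe_rp (y : T) : ((rp y : ℝ) : T) = y :=
  (AddCircle.equivIco (1 : ℝ) 0).symm_apply_apply y

lemma rp_coe (x : ℝ) : rp (x : T) = Int.fract x := by
  have h := AddCircle.coe_equivIco_mk_apply (p := (1 : ℝ)) x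
  rw [div_one, mul_one] at h
  exact h

lemma meas_coe : Measurable (fun x : ℝ => (x : T)) := AddCircle.measurable_mk'

/-- the map `x ↦ r x + γ` on representatives -/
noncomputable def aff (r γ : ℝ) (y : T) : T := ((r * rp y + γ : ℝ) : T)

lemma meas_aff' (r γ : ℝ) : Measurable (aff r γ) :=
  meas_coe.comp ((meas_rp.const_mul r).add_const γ)

lemma rp_smul (n : ℕ) (y : T) : (n : ℝ) * rp y = ⌊(n : ℝ) * rp y⌋ + rp (n • y) := by
  have h : n • y = (((n : ℝ) * rp y : ℝ) : T) := by
    conv_lhs => rw [← coe_rp y]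
    rw [← AddCircle.coe_nsmul, nsmul_eq_mul]
  rw [h, rp_coe, Int.floor_add_fract]

lemma diff_eq (r γ : ℝ) (n : ℕ) (y : T) :
    aff r γ (n • y) - n • aff r γ y =
      ((-(r * ⌊(n : ℝ) * rp y⌋ + ((n : ℝ) - 1) * γ) : ℝ) : T) := by
  unfold aff
  rw [← AddCircle.coe_nsmul, nsmul_eq_mul, ← AddCircle.coe_sub]
  congr 1
  have h := rp_smul n y
  have h2 : rp (n • y) = (n : ℝ) * rp y - ⌊(n : ℝ) * rp y⌋ := by linarith
  rw [h2]
  ring

/-- **Key lemma.** -/
lemma key {p q : ℕ} (hp : 2 ≤ p) (hq : 2 ≤ q)
    (hirr : Irrational (Real.log p / Real.log q)) {ν : Measure T} [IsFiniteMeasure ν]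
    (hνp : MeasurePreserving (fun x : T => p • x) ν ν)
    (hνq : MeasurePreserving (fun x : T => q • x) ν ν) (hs : ν ⟂ₘ (volume : Measure T))
    {μ : Measure T} [IsFiniteMeasure μ] {m : ℕ} (hm : 2 ≤ m)
    (hμ : MeasurePreserving (fun x : T => m • x) μ μ) {r γ : ℝ} {B : Set T}
    (hB : MeasurableSet B) (hB0 : μ B ≠ 0)
    (hle : (μ.restrict B).map (aff r γ) ≤ ν) (N : ℕ) :
    ∃ (n : ℕ) (l : ℤ), N ≤ n ∧ (∃ y ∈ B, (l : ℝ) ≤ n * rp y ∧ n * rp y < l + 1) ∧
      ¬ Irrational (r * l + ((n : ℝ) - 1) * γ) := by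
  -- recurrence
  have hfr := hμ.conservative.frequently_measure_inter_ne_zero hB.nullMeasurableSet hB0
  obtain ⟨i, hiN, hi⟩ := frequently_atTop.1 hfr N
  set n : ℕ := m ^ i with hn
  have hiter : (fun x : T => m • x)^[i] = fun x => n • x := by
    rw [hn]
    clear hi hiN
    induction i with
    | zero => funext x; simp
    | succ i ih =>
      have := ih rfl
      rw [Function.iterate_succ', this]
      funext x
      simp only [Function.comp]
      rw [← mul_nsmul', pow_succ']
  rw [hiter] at hi
  have hNn : N ≤ n := hiN.trans (Nat.lt_pow_self (by omega)).le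
  have hmpn : MeasurePreserving (fun x : T => n • x) μ μ := mp_pow hμ i
  set D : Set T := B ∩ (fun x : T => n • x) ⁻¹' B with hD
  have hDm : MeasurableSet D := hB.inter (meas_smul n hB)
  -- split according to the digit
  set E : ℤ → Set T := fun l => D ∩ {y | ⌊(n : ℝ) * rp y⌋ = l} with hE
  have hfl : Measurable fun y : T => ⌊(n : ℝ) * rp y⌋ := (meas_rp.const_mul _).floor
  have hEm : ∀ l, MeasurableSet (E l) := fun l =>
    hDm.inter (hfl (measurableSet_singleton l))
  have hDE : D = ⋃ l, E l := by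
    ext y
    simp [hE]
  have hex : ∃ l, μ (E l) ≠ 0 := by
    by_contra hcon
    push Not at hcon
    apply hi
    rw [hDE, measure_iUnion_null_iff]
    exact hcon
  obtain ⟨l, hl⟩ := hex
  have hne : (E l).Nonempty := nonempty_of_measure_ne_zero hl
  obtain ⟨y, hy⟩ := hne
  refine ⟨n, l, hNn, ⟨y, hy.1.1, ?_⟩, ?_⟩
  · have h1 : ⌊(n : ℝ) * rp y⌋ = l := hy.2
    exact Int.floor_eq_iff.1 h1
  · intro hirr'
    set θ : ℝ := -(r * l + ((n : ℝ) - 1) * γ) with hθ
    have hθi : Irrational θ := hirr'.neg
    have hdense := dense_orbit hp hq hirr (not_fin hθi)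
    set κ := μ.restrict (E l) with hκ
    set X : T → T := fun y => n • aff r γ y with hX
    set Y : T → T := fun y => aff r γ (n • y) with hY
    have hXm : Measurable X := (meas_smul n).comp (meas_aff' r γ)
    have hYm : Measurable Y := (meas_aff' r γ).comp (meas_smul n)
    have hEB : E l ⊆ B := fun z hz => hz.1.1
    have hXle : κ.map X ≤ ν.map (fun x : T => n • x) := by
      have e : κ.map X = (κ.map (aff r γ)).map (fun x : T => n • x) := by
        rw [Measure.map_map (meas_smul n) (meas_aff' r γ)]; rfl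
      rw [e]
      refine Measure.map_mono (le_trans ?_ hle) (meas_smul n)
      exact Measure.map_mono (Measure.restrict_mono hEB le_rfl) (meas_aff' r γ)
    have hYle : κ.map Y ≤ ν := by
      have e : κ.map Y = (κ.map (fun x : T => n • x)).map (aff r γ) := by
        rw [Measure.map_map (meas_aff' r γ) (meas_smul n)]; rfl
      rw [e]
      refine le_trans (Measure.map_mono ?_ (meas_aff' r γ)) hle
      -- `κ.map (n • ·) ≤ μ.restrict B`
      have h1 : κ ≤ μ.restrict ((fun x : T => n • x) ⁻¹' B) :=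
        Measure.restrict_mono (fun z hz => hz.1.2) le_rfl
      refine (Measure.map_mono h1 (meas_smul n)).trans ?_
      rw [← Measure.restrict_map (meas_smul n) hB, hmpn.map_eq]
    have hconv : ∀ᵐ ω ∂κ, Tendsto (fun _ : ℕ => 1 • (Y ω - X ω)) atTop (𝓝 (θ : T)) := by
      filter_upwards [ae_restrict_mem (hEm l)] with ω hω
      have h1 : ⌊(n : ℝ) * rp ω⌋ = l := hω.2
      have h2 : Y ω - X ω = (θ : T) := by
        rw [hX, hY]
        simp only
        rw [diff_eq, h1]
      simp only [one_smul, h2]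
      exact tendsto_const_nhds
    have hνn : ∀ {s : ℕ}, MeasurePreserving (fun x : T => s • x) ν ν →
        MeasurePreserving (fun x : T => s • x) (ν.map (fun x : T => n • x))
          (ν.map (fun x : T => n • x)) := by
      intro s h
      have := mp_map h (n : ℤ)
      simpa using this
    obtain ⟨-, k2⟩ := core_measure hp (hνn hνp) (hνn hνq) hνp hνq hXm hYm hXle hYle hdense
      (m := fun _ => 1) (fun _ => ⟨0, 0, by simp⟩) hconv
    have h5 := zero_of_le k2 hs
    rw [hκ, Measure.restrict_apply_univ] at h5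
    exact hl h5

end Pool.Agent.U610.AR
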