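import Mathlib
import Pool.Agent.U610.AR.Key

/-!
Affine rigidity: two return times give the rationality of the slope and of the intercept.
-/

set_option autoImplicit false

open MeasureTheory Filter Topology Set
open Pool.Agent.H847R3.XpXq

namespace Pool.Agent.U610.AR

lemma split {κ : Measure ℝ} (h0 : κ ≠ 0) (hna : ∀ x, κ {x} = 0) :
    ∃ a' b' : ℝ, a' < b' ∧ κ (Iic a') ≠ 0 ∧ κ (Ici b') ≠ 0 := by
  obtain ⟨x, hx⟩ := Measure.nonempty_support h0
  have h1 : κ {x}ᶜ ≠ 0 := by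
    intro h
    apply h0
    have : κ univ ≤ κ {x} + κ {x}ᶜ := by
      rw [← union_compl_self {x}]; exact measure_union_le _ _
    rw [h, hna, add_zero] at this
    exact Measure.measure_univ_eq_zero.1 (le_antisymm this zero_le)
  obtain ⟨y, hyx, hy⟩ := Measure.nonempty_inter_support_of_pos (pos_iff_ne_zero.2 h1)
  have hne : y ≠ x := hyx
  wlog hlt : x < y generalizing x y with H
  · refine H y hy ?_ x (Ne.symm hne) hx (Ne.symm hne) (lt_of_le_of_ne (not_lt.1 hlt) hne)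
    intro h
    have h2 : x ∈ ({y} : Set ℝ)ᶜ := Ne.symm hne
    have h3 := (Measure.mem_support_iff_forall x).1 hx _ (isOpen_compl_singleton.mem_nhds h2)
    exact absurd h h3.ne'
  · refine ⟨x + (y - x) / 3, y - (y - x) / 3, by linarith, ?_, ?_⟩
    · exact ((Measure.mem_support_iff_forall x).1 hx _ (Iic_mem_nhds (by linarith))).ne'
    · exact ((Measure.mem_support_iff_forall y).1 hy _ (Ici_mem_nhds (by linarith))).ne'

lemma not_irr_iff {x : ℝ} : ¬ Irrational x ↔ ∃ t : ℚ, x = t := by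
  unfold Irrational
  rw [not_not]
  constructor
  · rintro ⟨t, rfl⟩; exact ⟨t, rfl⟩
  · rintro ⟨t, rfl⟩; exact ⟨t, rfl⟩

/-- rationality on the circle -/
lemma rational_of_le {p q : ℕ} (hp : 2 ≤ p) (hq : 2 ≤ q)
    (hirr : Irrational (Real.log p / Real.log q)) {ν : Measure T} [IsFiniteMeasure ν]
    (hνp : MeasurePreserving (fun x : T => p • x) ν ν)
    (hνq : MeasurePreserving (fun x : T => q • x) ν ν) (hs : ν ⟂ₘ (volume : Measure T))
    {μ : Measure T} [IsFiniteMeasure μ] (hna : ∀ x, μ {x} = 0) {m : ℕ} (hm : 2 ≤ m)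
    (hμ : MeasurePreserving (fun x : T => m • x) μ μ) {r γ : ℝ} {B : Set T}
    (hB : MeasurableSet B) (hB0 : μ B ≠ 0)
    (hle : (μ.restrict B).map (aff r γ) ≤ ν) : ∃ s t : ℚ, r = s ∧ γ = t := by
  set κ := (μ.restrict B).map rp with hκ
  have hκ0 : κ ≠ 0 := by
    intro h
    apply hB0
    have h1 : κ univ = μ B := by
      rw [hκ, Measure.map_apply meas_rp MeasurableSet.univ]; simp
    rw [← h1, h]; simp
  have hκna : ∀ x, κ {x} = 0 := by
    intro x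
    rw [hκ, Measure.map_apply meas_rp (measurableSet_singleton x)]
    refine measure_mono_null ?_ (Measure.absolutelyContinuous_of_le Measure.restrict_le_self
      (hna (x : T)))
    intro y hy
    have h1 : rp y = x := hy
    show y = (x : T)
    rw [← h1, coe_rp]
  obtain ⟨a', b', hab, ha, hb⟩ := split hκ0 hκna
  have hsub : ∀ I : Set ℝ, MeasurableSet I → κ I ≠ 0 → μ (B ∩ rp ⁻¹' I) ≠ 0 := by
    intro I hI h
    rwa [hκ, Measure.map_apply meas_rp hI, Measure.restrict_apply (meas_rp hI), inter_comm] at h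
  have hle' : ∀ I : Set ℝ, (μ.restrict (B ∩ rp ⁻¹' I)).map (aff r γ) ≤ ν := fun I =>
    (Measure.map_mono (Measure.restrict_mono inter_subset_left le_rfl) (meas_aff' r γ)).trans hle
  obtain ⟨N, hN⟩ := exists_nat_gt (2 / (b' - a') + 2)
  have hba : 0 < b' - a' := by linarith
  have hN2 : 2 / (b' - a') + 2 < N := hN
  have hpos : 0 < 2 / (b' - a') := by positivity
  obtain ⟨n₁, l₁, hn₁, ⟨y₁, hy₁B, hl₁, hl₁'⟩, hir₁⟩ := key hp hq hirr hνp hνq hs hm hμ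
    (hB.inter (meas_rp measurableSet_Iic)) (hsub _ measurableSet_Iic ha) (hle' _) N
  obtain ⟨n₂, l₂, hn₂, ⟨y₂, hy₂B, hl₂, hl₂'⟩, hir₂⟩ := key hp hq hirr hνp hνq hs hm hμ
    (hB.inter (meas_rp measurableSet_Ici)) (hsub _ measurableSet_Ici hb) (hle' _) N
  obtain ⟨t₁, ht₁⟩ := not_irr_iff.1 hir₁
  obtain ⟨t₂, ht₂⟩ := not_irr_iff.1 hir₂
  have hya : rp y₁ ≤ a' := hy₁B.2
  have hyb : b' ≤ rp y₂ := hy₂B.2
  have ha0 : 0 ≤ a' := (rp_nonneg y₁).trans hya
  have hb1 : b' < 1 := hyb.trans_lt (rp_lt_one y₂)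
  set u : ℝ := (n₁ : ℝ) - 1 with hu
  set v : ℝ := (n₂ : ℝ) - 1 with hv
  have hn₁' : (N : ℝ) ≤ n₁ := by exact_mod_cast hn₁
  have hn₂' : (N : ℝ) ≤ n₂ := by exact_mod_cast hn₂
  have hu0 : 2 / (b' - a') < u := by linarith
  have hv0 : 2 / (b' - a') < v := by linarith
  have hu1 : 2 < u * (b' - a') := by rwa [div_lt_iff₀ hba] at hu0
  have hv1 : 2 < v * (b' - a') := by rwa [div_lt_iff₀ hba] at hv0
  have hup : 0 < u := hpos.trans hu0
  have hvp : 0 < v := hpos.trans hv0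
  have hL1 : (l₁ : ℝ) ≤ (u + 1) * a' := by
    calc (l₁ : ℝ) ≤ n₁ * rp y₁ := hl₁
      _ ≤ n₁ * a' := by gcongr
      _ = (u + 1) * a' := by rw [hu]; ring
  have hL2 : (v + 1) * b' - 1 < l₂ := by
    have : (n₂ : ℝ) * b' ≤ n₂ * rp y₂ := by gcongr
    have e : (v + 1) * b' = n₂ * b' := by rw [hv]; ring
    rw [e]; linarith
  have hD : 0 < (l₂ : ℝ) * u - l₁ * v := by
    have h1 : ((v + 1) * b' - 1) * u < l₂ * u := by gcongr
    have h2 : (l₁ : ℝ) * v ≤ (u + 1) * a' * v := by gcongr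
    have h3 : u + v < u * v * (b' - a') := by
      have h4 : 2 * v < u * (b' - a') * v := by gcongr
      have h5 : 2 * u < v * (b' - a') * u := by gcongr
      nlinarith
    nlinarith [mul_nonneg ha0 hvp.le, mul_pos hup (sub_pos.2 hb1)]
  have hr : r = ((t₂ : ℝ) * u - t₁ * v) / (l₂ * u - l₁ * v) := by
    rw [eq_div_iff hD.ne', ← ht₁, ← ht₂]
    ring
  have hγ : γ = ((t₁ : ℝ) - r * l₁) / u := by
    rw [eq_div_iff hup.ne', ← ht₁]
    ring
  have hrQ : r = (((t₂ * ((n₁ : ℚ) - 1) - t₁ * ((n₂ : ℚ) - 1)) /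
      ((l₂ : ℚ) * ((n₁ : ℚ) - 1) - (l₁ : ℚ) * ((n₂ : ℚ) - 1)) : ℚ) : ℝ) := by
    push_cast
    exact hr
  refine ⟨_, ((t₁ - ((t₂ * ((n₁ : ℚ) - 1) - t₁ * ((n₂ : ℚ) - 1)) /
      ((l₂ : ℚ) * ((n₁ : ℚ) - 1) - (l₁ : ℚ) * ((n₂ : ℚ) - 1))) * (l₁ : ℚ)) / ((n₁ : ℚ) - 1) : ℚ),
    hrQ, ?_⟩
  rw [hγ, hrQ]
  push_cast
  rfl

end Pool.Agent.U610.AR
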