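import Mathlib
import Pool.Agent.U610.AR.Main

/-!
Affine rigidity for measures on the line, and countability of the non-singular affine images.
-/

set_option autoImplicit false

open MeasureTheory Filter Topology Set
open Pool.Agent.H847R3.XpXq

namespace Pool.Agent.U610.AR

/-- the affine map modulo one, on the line -/
noncomputable def ln (a b : ℝ) (x : ℝ) : T := ((a * x + b : ℝ) : T)

lemma meas_ln (a b : ℝ) : Measurable (ln a b) :=
  meas_coe.comp ((measurable_id.const_mul a).add_const b)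

/-- a part of `μ` which is absolutely continuous with respect to `κ ≪ μ` -/
lemma exists_part {κ μ : Measure T} [IsFiniteMeasure κ] [IsFiniteMeasure μ] (h0 : κ ≠ 0)
    (h : κ ≪ μ) : ∃ B : Set T, MeasurableSet B ∧ μ B ≠ 0 ∧ μ.restrict B ≪ κ := by
  set g := κ.rnDeriv μ with hg
  have hgm : Measurable g := Measure.measurable_rnDeriv _ _
  have := Measure.haveLebesgueDecomposition_of_sigmaFinite κ μ
  have hκ : μ.withDensity g = κ := Measure.withDensity_rnDeriv_eq κ μ h
  set B : Set T := {x | g x ≠ 0} with hB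
  have hBm : MeasurableSet B := (hgm (measurableSet_singleton 0)).compl
  refine ⟨B, hBm, ?_, ?_⟩
  · intro hz
    apply h0
    rw [← hκ]
    have : g =ᵐ[μ] 0 := by
      rw [Filter.EventuallyEq, ae_iff]
      exact hz
    rw [withDensity_congr_ae this]
    simp
  · have h1 : μ.restrict B ≪ (μ.restrict B).withDensity g :=
      withDensity_absolutelyContinuous' hgm.aemeasurable (by
        filter_upwards [ae_restrict_mem hBm] with x hx
        exact hx)
    have h2 : (μ.restrict B).withDensity g ≤ κ := by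
      rw [← restrict_withDensity hBm, hκ]
      exact Measure.restrict_le_self
    exact h1.trans (Measure.absolutelyContinuous_of_le h2)

/-- **Affine rigidity.** -/
theorem rigid {p q : ℕ} (hp : 2 ≤ p) (hq : 2 ≤ q)
    (hirr : Irrational (Real.log p / Real.log q)) {ν : Measure T} [IsFiniteMeasure ν]
    (hνp : MeasurePreserving (fun x : T => p • x) ν ν)
    (hνq : MeasurePreserving (fun x : T => q • x) ν ν) (hs : ν ⟂ₘ (volume : Measure T))
    {μ : Measure T} [IsFiniteMeasure μ] (hna : ∀ x, μ {x} = 0) {m : ℕ} (hm : 2 ≤ m)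
    (hμ : MeasurePreserving (fun x : T => m • x) μ μ) {κ : Measure ℝ} [IsFiniteMeasure κ]
    (h0 : κ ≠ 0) {a b c d : ℝ} (ha : a ≠ 0) (h1 : κ.map (ln a b) ≪ μ)
    (h2 : κ.map (ln c d) ≪ ν) : ∃ r t : ℚ, c = r * a ∧ d = r * b + t := by
  set r : ℝ := c / a with hr
  set γ : ℝ := d - r * b with hγ
  set κ' := κ.map (fun x : ℝ => a * x + b) with hκ'
  have hm1 : Measurable fun x : ℝ => a * x + b := (measurable_id.const_mul a).add_const b
  have hκ'0 : κ' univ ≠ 0 := by
    rw [hκ', Measure.map_apply hm1 MeasurableSet.univ, preimage_univ]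
    intro h
    exact h0 (Measure.measure_univ_eq_zero.1 h)
  have h1' : κ'.map (fun x : ℝ => (x : T)) ≪ μ := by
    rw [hκ', Measure.map_map meas_coe hm1]
    exact h1
  have h2' : κ'.map (ln r γ) ≪ ν := by
    rw [hκ', Measure.map_map (meas_ln r γ) hm1]
    have e : (ln r γ) ∘ (fun x : ℝ => a * x + b) = ln c d := by
      funext x
      simp only [Function.comp, ln]
      congr 1
      rw [hγ, hr]
      field_simp
      ring
    rw [e]
    exact h2
  have hUn : (univ : Set ℝ) = ⋃ k : ℤ, {x : ℝ | ⌊x⌋ = k} := by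
    ext x; simp
  obtain ⟨k, hk⟩ : ∃ k : ℤ, κ' {x : ℝ | ⌊x⌋ = k} ≠ 0 := by
    by_contra hcon
    push Not at hcon
    apply hκ'0
    rw [hUn, measure_iUnion_null_iff]
    exact hcon
  set F : Set ℝ := {x : ℝ | ⌊x⌋ = k} with hF
  have hFm : MeasurableSet F := Int.measurable_floor (measurableSet_singleton k)
  set lam := (κ'.restrict F).map (fun x : ℝ => (x : T)) with hlam
  have hl0 : lam ≠ 0 := by
    intro h
    apply hk
    have : lam univ = κ' F := by
      rw [hlam, Measure.map_apply meas_coe MeasurableSet.univ]; simp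
    rw [← this, h]; simp
  have hlμ : lam ≪ μ :=
    (Measure.absolutelyContinuous_of_le (Measure.map_mono Measure.restrict_le_self meas_coe)).trans
      h1'
  obtain ⟨B, hBm, hB0, hBl⟩ := exists_part hl0 hlμ
  set γ' : ℝ := γ + r * k with hγ'
  have hlν : lam.map (aff r γ') ≪ ν := by
    have e : lam.map (aff r γ') = (κ'.restrict F).map (ln r γ) := by
      rw [hlam, Measure.map_map (meas_aff' r γ') meas_coe]
      refine Measure.map_congr ?_
      filter_upwards [ae_restrict_mem hFm] with x hx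
      have hx' : ⌊x⌋ = k := hx
      simp only [Function.comp, aff, ln]
      rw [rp_coe]
      congr 1
      have h3 : Int.fract x = x - k := by rw [← hx']; rfl
      rw [h3, hγ']
      ring
    rw [e]
    exact (Measure.absolutelyContinuous_of_le
      (Measure.map_mono Measure.restrict_le_self (meas_ln r γ))).trans h2'
  have hBν : (μ.restrict B).map (aff r γ') ≪ ν := (hBl.map (meas_aff' r γ')).trans hlν
  obtain ⟨Q, hQm, hQmono, hQ0, hQ⟩ := trunc (meas_aff' r γ') hBν
  obtain ⟨j, hj⟩ : ∃ j, μ (B ∩ Q j) ≠ 0 := by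
    by_contra hcon
    push Not at hcon
    apply hB0
    have h3 : (μ.restrict B) (⋃ n, Q n) = 0 := by
      rw [measure_iUnion_null_iff]
      intro n
      rw [Measure.restrict_apply (hQm n), inter_comm]
      exact hcon n
    have h4 : (μ.restrict B) univ = 0 := by
      rw [← union_compl_self (⋃ n, Q n)]
      exact measure_union_null h3 hQ0
    rwa [Measure.restrict_apply_univ] at h4
  have hle := hQ j (Q j) (hQm j) subset_rfl
  rw [Measure.restrict_restrict (hQm j), inter_comm] at hle
  have hfin : IsFiniteMeasure ((j : ENNReal) • ν) := by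
    refine ⟨?_⟩
    simp only [Measure.smul_apply, smul_eq_mul]
    exact ENNReal.mul_lt_top (ENNReal.natCast_lt_top j) (measure_lt_top _ _)
  obtain ⟨s, t, hsr, htγ⟩ := rational_of_le hp hq hirr (mp_smul hνp j) (mp_smul hνq j)
    (hs.smul j) hna hm hμ (hBm.inter (hQm j)) hj hle
  refine ⟨s, t - s * k, ?_, ?_⟩
  · rw [← hsr, hr]; field_simp
  · push_cast
    rw [← htγ, ← hsr, hγ', hγ]
    ring

/-- the part of a measure which a map moves to an absolutely continuous measure -/
lemma exists_ac {Ω : Type*} [MeasurableSpace Ω] {P : Measure Ω} [IsFiniteMeasure P]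
    {ν : Measure T} [IsFiniteMeasure ν]
    {f : Ω → T} (hf : Measurable f) (h : ¬ (P.map f) ⟂ₘ ν) :
    ∃ B : Set Ω, MeasurableSet B ∧ P B ≠ 0 ∧ (P.restrict B).map f ≪ ν := by
  set P' := P.map f with hP'
  have := Measure.haveLebesgueDecomposition_of_sigmaFinite P' ν
  have hdec := Measure.haveLebesgueDecomposition_add P' ν
  obtain ⟨A, hA, hA1, hA2⟩ := Measure.mutuallySingular_singularPart P' ν
  -- `singularPart A = 0`, `ν Aᶜ = 0`
  have hres : P'.restrict A ≪ ν := by
    rw [hdec, Measure.restrict_add, Measure.restrict_eq_zero.2 hA1, zero_add]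
    exact (Measure.absolutelyContinuous_of_le Measure.restrict_le_self).trans
      (withDensity_absolutelyContinuous _ _)
  refine ⟨f ⁻¹' A, hf hA, ?_, ?_⟩
  · intro hz
    apply h
    refine ⟨A, hA, ?_, hA2⟩
    rw [hP', Measure.map_apply hf hA]
    exact hz
  · rw [← Measure.restrict_map hf hA]
    exact hres

/-- **Images of an invariant measure.** -/
theorem singular_image {p q : ℕ} (hp : 2 ≤ p) (hq : 2 ≤ q)
    (hirr : Irrational (Real.log p / Real.log q)) {ν : Measure T} [IsFiniteMeasure ν]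
    (hνp : MeasurePreserving (fun x : T => p • x) ν ν)
    (hνq : MeasurePreserving (fun x : T => q • x) ν ν) (hs : ν ⟂ₘ (volume : Measure T))
    {μ : Measure T} [IsFiniteMeasure μ] (hna : ∀ x, μ {x} = 0) {m : ℕ} (hm : 2 ≤ m)
    (hμ : MeasurePreserving (fun x : T => m • x) μ μ) {α β : ℝ}
    (hαβ : Irrational α ∨ Irrational β) : (μ.map (aff α β)) ⟂ₘ ν := by
  by_contra h
  obtain ⟨B, hBm, hB0, hBν⟩ := exists_ac (meas_aff' α β) h
  set κ := (μ.restrict B).map rp with hκ
  have hκ0 : κ ≠ 0 := by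
    intro h
    apply hB0
    have h1 : κ univ = μ B := by
      rw [hκ, Measure.map_apply meas_rp MeasurableSet.univ]; simp
    rw [← h1, h]; simp
  have k1 : κ.map (ln 1 0) ≪ μ := by
    rw [hκ, Measure.map_map (meas_ln 1 0) meas_rp]
    have e : (ln 1 0) ∘ rp = id := by
      funext y; simp [ln, coe_rp]
    rw [e, Measure.map_id]
    exact Measure.absolutelyContinuous_of_le Measure.restrict_le_self
  have k2 : κ.map (ln α β) ≪ ν := by
    rw [hκ, Measure.map_map (meas_ln α β) meas_rp]
    exact hBν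
  obtain ⟨r, t, h1, h2⟩ := rigid hp hq hirr hνp hνq hs hna hm hμ hκ0 one_ne_zero k1 k2
  rcases hαβ with h | h
  · exact h ⟨r, by rw [h1, mul_one]⟩
  · exact h ⟨t, by rw [h2, mul_zero, zero_add]⟩

/-- the relation of rational affine equivalence -/
def Rel (u v : ℝ × ℝ) : Prop := ∃ r t : ℚ, r ≠ 0 ∧ v.1 = r * u.1 ∧ v.2 = r * u.2 + t

lemma rel_equiv : Equivalence Rel where
  refl u := ⟨1, 0, one_ne_zero, by simp, by simp⟩
  symm := by
    rintro u v ⟨r, t, hr, h1, h2⟩
    have hr' : (r : ℝ) ≠ 0 := by exact_mod_cast hr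
    refine ⟨r⁻¹, -(t / r), inv_ne_zero hr, ?_, ?_⟩
    · rw [h1]; push_cast; field_simp
    · rw [h2]; push_cast; field_simp; ring
  trans := by
    rintro u v w ⟨r, t, hr, h1, h2⟩ ⟨r', t', hr', h1', h2'⟩
    refine ⟨r' * r, r' * t + t', mul_ne_zero hr' hr, ?_, ?_⟩
    · rw [h1', h1]; push_cast; ring
    · rw [h2', h2]; push_cast; ring

/-- an atomless measure invariant under two multiplications and singular to Lebesgue measure -/
def Exc (ν : Measure T) : Prop :=
  IsProbabilityMeasure ν ∧ (∀ x, ν {x} = 0) ∧ ν ⟂ₘ (volume : Measure T) ∧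
    ∃ p q : ℕ, 2 ≤ p ∧ 2 ≤ q ∧ Irrational (Real.log (p : ℝ) / Real.log (q : ℝ)) ∧
      MeasurePreserving (fun x : T => p • x) ν ν ∧ MeasurePreserving (fun x : T => q • x) ν ν

/-- **All but countably many affine images of any measure are singular to all the exceptional
measures.** -/
theorem countable_images (P : Measure ℝ) [IsFiniteMeasure P] :
    {u : ℝ × ℝ | ∃ ν : Measure T, Exc ν ∧ ¬ (P.map (ln u.1 u.2)) ⟂ₘ ν}.Countable := by
  set S := {u : ℝ × ℝ | ∃ ν : Measure T, Exc ν ∧ ¬ (P.map (ln u.1 u.2)) ⟂ₘ ν} with hS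
  have hex : ∀ u : S, ∃ (ν : Measure T) (B : Set ℝ), Exc ν ∧ MeasurableSet B ∧ P B ≠ 0 ∧
      (P.restrict B).map (ln u.1.1 u.1.2) ≪ ν := by
    intro u
    obtain ⟨ν, hν, h⟩ := u.2
    have := hν.1
    obtain ⟨B, hB⟩ := exists_ac (meas_ln _ _) h
    exact ⟨ν, B, hν, hB⟩
  choose ν B hE hBm hB0 hBν using hex
  -- the slope is not zero
  have hne : ∀ u : S, u.1.1 ≠ 0 := by
    intro u h
    have h1 : ln u.1.1 u.1.2 = fun _ => ((u.1.2 : ℝ) : T) := by
      funext x; simp [ln, h]
    have h2 := hBν u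
    rw [h1] at h2
    have h3 := h2 ((hE u).2.1 ((u.1.2 : ℝ) : T))
    rw [Measure.map_apply measurable_const (measurableSet_singleton _)] at h3
    have h4 : (fun _ : ℝ => ((u.1.2 : ℝ) : T)) ⁻¹' {((u.1.2 : ℝ) : T)} = univ := by
      ext; simp
    rw [h4, Measure.restrict_apply_univ] at h3
    exact hB0 u h3
  -- overlapping sets give related parameters
  have hrel : ∀ u v : S, P (B u ∩ B v) ≠ 0 → Rel u.1 v.1 := by
    intro u v huv
    set κ := P.restrict (B u ∩ B v) with hκ
    have hκ0 : κ ≠ 0 := by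
      intro h
      apply huv
      rw [← Measure.restrict_apply_univ, ← hκ, h]; simp
    have k1 : κ.map (ln u.1.1 u.1.2) ≪ ν u :=
      (Measure.absolutelyContinuous_of_le (Measure.map_mono
        (Measure.restrict_mono inter_subset_left le_rfl) (meas_ln _ _))).trans (hBν u)
    have k2 : κ.map (ln v.1.1 v.1.2) ≪ ν v :=
      (Measure.absolutelyContinuous_of_le (Measure.map_mono
        (Measure.restrict_mono inter_subset_right le_rfl) (meas_ln _ _))).trans (hBν v)
    obtain ⟨i1, hna1, -, p, q, hp, hq, hirr, hip, hiq⟩ := hE u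
    obtain ⟨i2, hna2, hs2, p', q', hp', hq', hirr', hip', hiq'⟩ := hE v
    obtain ⟨r, t, h1, h2⟩ := rigid hp' hq' hirr' hip' hiq' hs2 hna1 hp hip hκ0 (hne u) k1 k2
    refine ⟨r, t, ?_, h1, h2⟩
    rintro rfl
    exact hne v (by rw [h1]; simp)
  let st : Setoid S := ⟨fun u v => Rel u.1 v.1,
    ⟨fun u => rel_equiv.refl u.1, fun h => rel_equiv.symm h, fun h h' => rel_equiv.trans h h'⟩⟩
  -- countably many classes
  have hq1 : (univ : Set (Quotient st)).Countable := by
    have h1 : Set.Countable {c : Quotient st | 0 < P (B c.out)} := by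
      refine Measure.countable_meas_pos_of_disjoint_iUnion₀
        (fun c => (hBm c.out).nullMeasurableSet) ?_
      intro c c' hcc'
      show P (B c.out ∩ B c'.out) = 0
      by_contra h
      apply hcc'
      rw [← Quotient.out_eq c, ← Quotient.out_eq c']
      exact Quotient.sound (hrel _ _ h)
    refine h1.mono fun c _ => ?_
    exact pos_iff_ne_zero.2 (hB0 _)
  have hq2 : Countable (Quotient st) := Set.countable_univ_iff.1 hq1
  -- every class is countable
  have hcov : S ⊆ ⋃ c : Quotient st, range fun w : ℚ × ℚ =>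
      (((w.1 : ℝ) * c.out.1.1, (w.1 : ℝ) * c.out.1.2 + w.2) : ℝ × ℝ) := by
    intro u hu
    refine mem_iUnion.2 ⟨Quotient.mk st ⟨u, hu⟩, ?_⟩
    have h1 : st ((Quotient.mk st ⟨u, hu⟩ : Quotient st).out) ⟨u, hu⟩ := Quotient.mk_out _
    obtain ⟨r, t, -, h2, h3⟩ := h1
    exact ⟨(r, t), Prod.ext h2.symm h3.symm⟩
  exact (Set.countable_iUnion fun c => Set.countable_range _).mono hcov

end Pool.Agent.U610.AR
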